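import Pool.Agent.X115.HS.Stm2

namespace Pool.Agent.X107.HS

open MeasureTheory Set Filter Topology Real Pool.Agent.X115.HS

variable {n : ℕ}

theorem pd_eq {f : X n → ℝ} (hf : ContDiff ℝ ((⊤ : ℕ∞) : WithTop ℕ∞) f) (i : Fin n) (x : X n) :
    pd i f x = fderiv ℝ f x (EuclideanSpace.single i (1 : ℝ)) := by
  unfold pd
  have h1 : DifferentiableAt ℝ f x := (hf.differentiable (by simp)) x
  have h2 : HasDerivAt (fun s : ℝ => x + s • EuclideanSpace.single i (1 : ℝ))
      (EuclideanSpace.single i (1 : ℝ)) 0 := by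
    have := ((hasDerivAt_id (0 : ℝ)).smul_const (EuclideanSpace.single i (1 : ℝ))).const_add x
    simpa using this
  have h3 : HasFDerivAt f (fderiv ℝ f x) (x + (0 : ℝ) • EuclideanSpace.single i (1 : ℝ)) := by
    simpa using h1.hasFDerivAt
  exact (h3.comp_hasDerivAt (0 : ℝ) h2).deriv

theorem pd_contDiff {f : X n → ℝ} (hf : ContDiff ℝ ((⊤ : ℕ∞) : WithTop ℕ∞) f) (i : Fin n) :
    ContDiff ℝ ((⊤ : ℕ∞) : WithTop ℕ∞) (pd i f) := by
  have e : pd i f = fun x => fderiv ℝ f x (EuclideanSpace.single i (1 : ℝ)) :=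
    funext fun x => pd_eq hf i x
  rw [e]
  exact (hf.fderiv_right (m := ((⊤ : ℕ∞) : WithTop ℕ∞)) (by simp)).clm_apply contDiff_const

theorem d2_eq {f : X n → ℝ} (i : Fin n) (x : X n) :
    d2 i f x = pd i (pd i f) x := by
  unfold d2 pd
  congr 1
  funext s
  have : (fun t : ℝ => f (x + t • EuclideanSpace.single i (1 : ℝ))) =
      fun t => (fun r : ℝ => f (x + s • EuclideanSpace.single i (1 : ℝ) +
        r • EuclideanSpace.single i (1 : ℝ))) (t - s) := by
    funext t
    simp only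
    congr 1
    rw [add_assoc, ← add_smul]
    congr 2
    ring
  rw [this]
  have h := deriv_comp_sub_const (f := fun r : ℝ => f (x + s • EuclideanSpace.single i (1 : ℝ) +
    r • EuclideanSpace.single i (1 : ℝ))) s s
  rw [sub_self] at h
  exact h

theorem pd_scale (f : X n → ℝ) (c : ℝ) (i : Fin n) (x : X n) :
    pd i (fun y => f (c • y)) x = c * pd i f (c • x) := by
  unfold pd
  have : (fun s : ℝ => f (c • (x + s • EuclideanSpace.single i (1 : ℝ)))) =
      fun s => (fun r : ℝ => f (c • x + r • EuclideanSpace.single i (1 : ℝ))) (c * s) := by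
    funext s
    simp only
    congr 1
    rw [smul_add, smul_smul]
  rw [this]
  have h := deriv_comp_mul_left c (fun r : ℝ => f (c • x + r • EuclideanSpace.single i (1 : ℝ))) 0
  rw [mul_zero, smul_eq_mul] at h
  exact h

theorem bounded {f : X n → ℝ} (hf : Continuous f) (hs : HasCompactSupport f) :
    ∃ K : ℝ, 0 ≤ K ∧ ∀ x, |f x| ≤ K := by
  obtain ⟨K, hK⟩ := hs.exists_bound_of_continuous hf
  exact ⟨max K 0, le_max_right _ _, fun x => (hK x).trans (le_max_left _ _)⟩

theorem pd_support {f : X n → ℝ} (hf : ContDiff ℝ ((⊤ : ℕ∞) : WithTop ℕ∞) f)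
    (hs : HasCompactSupport f) (i : Fin n) : HasCompactSupport (pd i f) := by
  have e : pd i f = fun x => fderiv ℝ f x (EuclideanSpace.single i (1 : ℝ)) :=
    funext fun x => pd_eq hf i x
  rw [e]
  exact hs.fderiv_apply (𝕜 := ℝ) _

theorem t : S_CUT := by
  intro n
  let ψ : ContDiffBump (0 : X n) := ⟨1, 2, one_pos, one_lt_two⟩
  have hψ : ContDiff ℝ ((⊤ : ℕ∞) : WithTop ℕ∞) (fun x => ψ x) := ψ.contDiff
  have hψs : HasCompactSupport (fun x => ψ x) := ψ.hasCompactSupport
  have h1 : ∀ i : Fin n, ∃ K : ℝ, 0 ≤ K ∧ ∀ x, |pd i (fun x => ψ x) x| ≤ K := fun i =>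
    bounded (pd_contDiff hψ i).continuous (pd_support hψ hψs i)
  have h2 : ∀ i : Fin n, ∃ K : ℝ, 0 ≤ K ∧ ∀ x, |pd i (pd i (fun x => ψ x)) x| ≤ K := fun i =>
    bounded (pd_contDiff (pd_contDiff hψ i) i).continuous
      (pd_support (pd_contDiff hψ i) (pd_support hψ hψs i) i)
  choose K1 hK1 hK1' using h1
  choose K2 hK2 hK2' using h2
  set K : ℝ := ∑ i, (K1 i + K2 i) with hK
  have hle : ∀ i, K1 i + K2 i ≤ K := fun i =>
    Finset.single_le_sum (f := fun i => K1 i + K2 i) (fun j _ => add_nonneg (hK1 j) (hK2 j))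
      (Finset.mem_univ i)
  refine ⟨fun k x => ψ (((k : ℝ) + 1)⁻¹ • x), K, fun k => ?_⟩
  have hk : (0 : ℝ) < (k : ℝ) + 1 := by positivity
  set c : ℝ := ((k : ℝ) + 1)⁻¹ with hc
  have hc0 : 0 < c := inv_pos.2 hk
  have hc1 : c ≤ 1 := inv_le_one_of_one_le₀ (by linarith [Nat.cast_nonneg (α := ℝ) k])
  have hpd : ∀ (i : Fin n) (x : X n), pd i (fun y => ψ (c • y)) x = c * pd i (fun y => ψ y) (c • x) :=
    fun i x => pd_scale (fun y => ψ y) c i x
  have hd2 : ∀ (i : Fin n) (x : X n), d2 i (fun y => ψ (c • y)) x =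
      c * (c * pd i (pd i (fun y => ψ y)) (c • x)) := by
    intro i x
    rw [d2_eq]
    have e : pd i (fun y => ψ (c • y)) = fun y => c * pd i (fun y => ψ y) (c • y) :=
      funext fun y => hpd i y
    rw [e]
    have e2 : pd i (fun y => c * pd i (fun y => ψ y) (c • y)) x =
        c * pd i (fun y => pd i (fun y => ψ y) (c • y)) x := by
      unfold pd
      rw [deriv_const_mul_field']
    rw [e2, pd_scale]
  refine ⟨?_, ?_, ?_, ?_, ?_, ?_⟩
  · exact hψ.comp (contDiff_const_smul c)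
  · exact hψs.comp_homeomorph (Homeomorph.smulOfNeZero c hc0.ne')
  · intro x
    exact ⟨ψ.nonneg, ψ.le_one⟩
  · intro x hx
    apply ψ.one_of_mem_closedBall
    rw [mem_closedBall_zero_iff, norm_smul, Real.norm_eq_abs, abs_of_pos hc0]
    show c * ‖x‖ ≤ 1
    rw [hc, inv_mul_le_iff₀ hk]
    linarith
  · intro x i
    constructor
    · rw [hpd, abs_mul, abs_of_pos hc0]
      have := hK1' i (c • x)
      calc c * |pd i (fun y => ψ y) (c • x)| ≤ 1 * K1 i :=
            mul_le_mul hc1 this (abs_nonneg _) zero_le_one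
        _ ≤ K := by linarith [hle i, hK2 i]
    · rw [hd2, abs_mul, abs_mul, abs_of_pos hc0]
      have := hK2' i (c • x)
      have h3 : c * |pd i (pd i (fun y => ψ y)) (c • x)| ≤ 1 * K2 i :=
        mul_le_mul hc1 this (abs_nonneg _) zero_le_one
      have h4 : 0 ≤ c * |pd i (pd i (fun y => ψ y)) (c • x)| := by positivity
      nlinarith [hle i, hK1 i, hK2 i]
  · intro x hx i
    have hev : (fun y => ψ (c • y)) =ᶠ[𝓝 x] fun _ => (1 : ℝ) := by
      have ho : Metric.ball (0 : X n) k ∈ 𝓝 x := Metric.isOpen_ball.mem_nhds (by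
        rw [mem_ball_zero_iff]; exact hx)
      filter_upwards [ho] with y hy
      rw [mem_ball_zero_iff] at hy
      apply ψ.one_of_mem_closedBall
      rw [mem_closedBall_zero_iff, norm_smul, Real.norm_eq_abs, abs_of_pos hc0]
      show c * ‖y‖ ≤ 1
      rw [hc, inv_mul_le_iff₀ hk]
      linarith
    have hline : Tendsto (fun s : ℝ => x + s • EuclideanSpace.single i (1 : ℝ)) (𝓝 0) (𝓝 x) := by
      have : Continuous fun s : ℝ => x + s • EuclideanSpace.single i (1 : ℝ) := by fun_prop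
      have h := this.tendsto 0
      simpa using h
    have hev2 : (fun s : ℝ => ψ (c • (x + s • EuclideanSpace.single i (1 : ℝ)))) =ᶠ[𝓝 0]
        fun _ => (1 : ℝ) := hline.eventually hev
    constructor
    · unfold pd
      rw [hev2.deriv_eq]
      simp
    · unfold d2
      rw [hev2.deriv.deriv_eq]
      simp
end Pool.Agent.X107.HS
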