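import Pool.Agent.X107.HS.CUT

namespace Pool.Agent.X107.HS.IBP

open MeasureTheory Set Filter Topology Real Pool.Agent.X115.HS Pool.Agent.X107.HS

variable {n : ℕ}

theorem pd_eq1 {f : X n → ℝ} (hf : Differentiable ℝ f) (i : Fin n) (x : X n) :
    pd i f x = fderiv ℝ f x (EuclideanSpace.single i (1 : ℝ)) := by
  unfold pd
  have h1 : DifferentiableAt ℝ f x := hf x
  have h2 : HasDerivAt (fun s : ℝ => x + s • EuclideanSpace.single i (1 : ℝ))
      (EuclideanSpace.single i (1 : ℝ)) 0 := by
    have := ((hasDerivAt_id (0 : ℝ)).smul_const (EuclideanSpace.single i (1 : ℝ))).const_add x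
    simpa using this
  have h3 : HasFDerivAt f (fderiv ℝ f x) (x + (0 : ℝ) • EuclideanSpace.single i (1 : ℝ)) := by
    simpa using h1.hasFDerivAt
  exact (h3.comp_hasDerivAt (0 : ℝ) h2).deriv

theorem pd_contDiff1 {f : X n → ℝ} (hf : ContDiff ℝ 2 f) (i : Fin n) :
    ContDiff ℝ 1 (pd i f) := by
  have e : pd i f = fun x => fderiv ℝ f x (EuclideanSpace.single i (1 : ℝ)) :=
    funext fun x => pd_eq1 (hf.differentiable (by norm_num)) i x
  rw [e]
  exact (hf.fderiv_right (m := 1) (by norm_num)).clm_apply contDiff_const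

theorem comp (f e : X n → ℝ) (hf : ContDiff ℝ 2 f)
    (he : ContDiff ℝ ((⊤ : ℕ∞) : WithTop ℕ∞) e) (hs : HasCompactSupport e) (i : Fin n) :
    Integrable (fun x => d2 i f x * e x) ∧ Integrable (fun x => f x * d2 i e x) ∧
    ∫ x, d2 i f x * e x = ∫ x, f x * d2 i e x := by
  have hf1 : Differentiable ℝ f := hf.differentiable (by norm_num)
  have hpf := pd_contDiff1 hf i
  have hpf1 : Differentiable ℝ (pd i f) := hpf.differentiable (by norm_num)
  have he1 : Differentiable ℝ e := he.differentiable (by simp)
  have hpe := pd_contDiff he i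
  have hpe1 : Differentiable ℝ (pd i e) := hpe.differentiable (by simp)
  have hpes := pd_support he hs i
  have hd2e := pd_contDiff hpe i
  have hd2es := pd_support hpe hpes i
  have ef : ∀ x, d2 i f x = fderiv ℝ (pd i f) x (EuclideanSpace.single i (1 : ℝ)) := fun x => by
    rw [d2_eq, pd_eq1 hpf1]
  have ee : ∀ x, d2 i e x = fderiv ℝ (pd i e) x (EuclideanSpace.single i (1 : ℝ)) := fun x => by
    rw [d2_eq, pd_eq1 hpe1]
  have cf : Continuous fun x => fderiv ℝ (pd i f) x (EuclideanSpace.single i (1 : ℝ)) :=
    (hpf.continuous_fderiv (by norm_num)).clm_apply continuous_const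
  have ce : Continuous fun x => fderiv ℝ (pd i e) x (EuclideanSpace.single i (1 : ℝ)) :=
    (hpe.continuous_fderiv (by simp)).clm_apply continuous_const
  have I1 : Integrable (fun x => e x * fderiv ℝ (pd i f) x (EuclideanSpace.single i (1 : ℝ))) :=
    (he.continuous.mul cf).integrable_of_hasCompactSupport hs.mul_right
  have I2 : Integrable (fun x => fderiv ℝ e x (EuclideanSpace.single i (1 : ℝ)) * pd i f x) := by
    have e0 : (fun x => fderiv ℝ e x (EuclideanSpace.single i (1 : ℝ)) * pd i f x) =
        fun x => pd i e x * pd i f x := by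
      funext x
      rw [pd_eq1 he1]
    rw [e0]
    exact (hpe.continuous.mul hpf.continuous).integrable_of_hasCompactSupport hpes.mul_right
  have I3 : Integrable (fun x => e x * pd i f x) :=
    (he.continuous.mul hpf.continuous).integrable_of_hasCompactSupport hs.mul_right
  have I4 : Integrable (fun x => pd i e x * fderiv ℝ f x (EuclideanSpace.single i (1 : ℝ))) := by
    have e0 : (fun x => pd i e x * fderiv ℝ f x (EuclideanSpace.single i (1 : ℝ))) =
        fun x => pd i e x * pd i f x := by
      funext x
      rw [pd_eq1 hf1]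
    rw [e0]
    exact (hpe.continuous.mul hpf.continuous).integrable_of_hasCompactSupport hpes.mul_right
  have I5 : Integrable (fun x => fderiv ℝ (pd i e) x (EuclideanSpace.single i (1 : ℝ)) * f x) := by
    have e0 : (fun x => fderiv ℝ (pd i e) x (EuclideanSpace.single i (1 : ℝ)) * f x) =
        fun x => pd i (pd i e) x * f x := by
      funext x
      rw [pd_eq1 hpe1]
    rw [e0]
    exact (hd2e.continuous.mul hf.continuous).integrable_of_hasCompactSupport hd2es.mul_right
  have I6 : Integrable (fun x => pd i e x * f x) :=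
    (hpe.continuous.mul hf.continuous).integrable_of_hasCompactSupport hpes.mul_right
  have S1 := integral_mul_fderiv_eq_neg_fderiv_mul_of_integrable (μ := volume) I2 I1 I3 (fun x _ => he1 x)
    (fun x _ => hpf1 x)
  have S2 := integral_mul_fderiv_eq_neg_fderiv_mul_of_integrable (μ := volume) I5 I4 I6 (fun x _ => hpe1 x)
    (fun x _ => hf1 x)
  refine ⟨?_, ?_, ?_⟩
  · refine I1.congr (Filter.Eventually.of_forall fun x => ?_)
    show e x * fderiv ℝ (pd i f) x (EuclideanSpace.single i (1 : ℝ)) = d2 i f x * e x
    rw [ef, mul_comm]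
  · refine I5.congr (Filter.Eventually.of_forall fun x => ?_)
    show fderiv ℝ (pd i e) x (EuclideanSpace.single i (1 : ℝ)) * f x = f x * d2 i e x
    rw [ee, mul_comm]
  · calc ∫ x, d2 i f x * e x = ∫ x, e x * fderiv ℝ (pd i f) x (EuclideanSpace.single i (1 : ℝ)) := by
          refine integral_congr_ae (Filter.Eventually.of_forall fun x => ?_)
          show d2 i f x * e x = e x * fderiv ℝ (pd i f) x (EuclideanSpace.single i (1 : ℝ))
          rw [ef, mul_comm]
      _ = - ∫ x, fderiv ℝ e x (EuclideanSpace.single i (1 : ℝ)) * pd i f x := S1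
      _ = - ∫ x, pd i e x * fderiv ℝ f x (EuclideanSpace.single i (1 : ℝ)) := by
          congr 1
          refine integral_congr_ae (Filter.Eventually.of_forall fun x => ?_)
          show fderiv ℝ e x (EuclideanSpace.single i (1 : ℝ)) * pd i f x =
            pd i e x * fderiv ℝ f x (EuclideanSpace.single i (1 : ℝ))
          rw [pd_eq1 he1, pd_eq1 hf1]
      _ = ∫ x, fderiv ℝ (pd i e) x (EuclideanSpace.single i (1 : ℝ)) * f x := by
          rw [S2, neg_neg]
      _ = ∫ x, f x * d2 i e x := by
          refine integral_congr_ae (Filter.Eventually.of_forall fun x => ?_)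
          show fderiv ℝ (pd i e) x (EuclideanSpace.single i (1 : ℝ)) * f x = f x * d2 i e x
          rw [ee, mul_comm]

theorem t : S_IBP := by
  intro n f e hf he hs
  have hc := fun i => comp f e hf he hs i
  unfold lap
  have e1 : (fun x => (∑ i, d2 i f x) * e x) = fun x => ∑ i, d2 i f x * e x := by
    funext x; rw [Finset.sum_mul]
  have e2 : (fun x => f x * ∑ i, d2 i e x) = fun x => ∑ i, f x * d2 i e x := by
    funext x; rw [Finset.mul_sum]
  rw [e1, e2, integral_finsetSum _ fun i _ => (hc i).1, integral_finsetSum _ fun i _ => (hc i).2.1]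
  exact Finset.sum_congr rfl fun i _ => (hc i).2.2

end Pool.Agent.X107.HS.IBP
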